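import Pool.Agent.H13.TFQ.H71.FU1.Fun1_1
import Pool.Agent.H13.TFQ.M30
import Pool.Agent.H13.TFQ.M39
import Pool.Agent.H13.TFQ.M47

/-!
# Project FU: Morita invariance, the joint assembly map

`cls_cr_reindex`: products with a commuting element for representations which differ by the numbering of the basis.
`push_asm1`: flattening and the product. `NatK1.ofMat`: the family of a homomorphism `R' → Mat_r(R)`.
`ratInj01_of_retract`, `ratInj01_matrix`, `ratInj01_finExt`.
-/

set_option autoImplicit false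

open Matrix
open scoped TensorProduct

universe u v w

namespace Pool.Agent.H71.FU1

open Pool.Agent.H71.FQ
open Pool.Agent.H16.FU
open Pool.Agent.H71.FJ (K0 K0.map K0.flat K0.push K0.push_congr K0.map_push K0.push_map)
open Pool.Agent.H95.WH (K1 K1.mk K1.lift K1.lift_mk K1.hom_ext K1.map K1.map_mk K1.map_map K1.push K1.map_push FamSub conjHom FinSub flatU flatM reU reU_val)

section Cr

variable {A : Type u} [Ring A] {n : ℕ} {Γ : Type w} [Group Γ]

theorem zpow_comm' {N M : ℕ} (u : GLm N A) (v : GLm M A) (P : Matrix (Fin N) (Fin M) A)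
    (h : u.val * P = P * v.val) (i : ℤ) : (u ^ i).val * P = P * (v ^ i).val := by
  have hi : (u⁻¹).val * P = P * (v⁻¹).val := by
    calc (u⁻¹).val * P = (u⁻¹).val * P * (v.val * (v⁻¹).val) := by
          rw [Units.mul_inv, Matrix.mul_one]
      _ = (u⁻¹).val * (P * v.val) * (v⁻¹).val := by simp only [Matrix.mul_assoc]
      _ = (u⁻¹).val * (u.val * P) * (v⁻¹).val := by rw [h]
      _ = P * (v⁻¹).val := by rw [← Matrix.mul_assoc (u⁻¹).val, Units.inv_mul, Matrix.one_mul]
  induction i using Int.induction_on with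
  | zero => rw [zpow_zero, zpow_zero, Units.val_one, Units.val_one, Matrix.one_mul, Matrix.mul_one]
  | succ i ih =>
    rw [_root_.zpow_add_one, _root_.zpow_add_one, Units.val_mul, Units.val_mul, Matrix.mul_assoc, h,
      ← Matrix.mul_assoc, ih, Matrix.mul_assoc]
  | pred i ih =>
    rw [_root_.zpow_sub_one, _root_.zpow_sub_one, Units.val_mul, Units.val_mul, Matrix.mul_assoc, hi,
      ← Matrix.mul_assoc, ih, Matrix.mul_assoc]

/-- **Isomorphic representations and commuting elements give the same class.** -/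
theorem cls_cr_iso {N M : ℕ} (f : Γ →* GLm N A) (g : Γ →* GLm M A) (u : GLm N A) (v : GLm M A)
    (hu : ∀ γ, f γ * u = u * f γ) (hv : ∀ γ, g γ * v = v * g γ)
    (P : Matrix (Fin N) (Fin M) A) (Q : Matrix (Fin M) (Fin N) A) (hPQ : P * Q = 1)
    (hQP : Q * P = 1) (h : ∀ γ, (f γ).val * P = P * (g γ).val) (h' : u.val * P = P * v.val)
    (x : HG Γ n) :
    KQ.cls A (n + 1) N (HG.cr f u hu x) = KQ.cls A (n + 1) M (HG.cr g v hv x) := by
  rw [HG.cr_eq_map, HG.cr_eq_map]
  refine KQ.cls_iso _ _ P Q hPQ hQP (fun y => ?_) _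
  change (f y.1 * u ^ (Multiplicative.toAdd y.2)).val * P =
    P * (g y.1 * v ^ (Multiplicative.toAdd y.2)).val
  rw [Units.val_mul, Units.val_mul, Matrix.mul_assoc, zpow_comm' u v P h', ← Matrix.mul_assoc, h,
    Matrix.mul_assoc]

/-- representations which differ by the numbering of the basis -/
theorem cls_cr_reindex {N M : ℕ} {ι : Type*} [Fintype ι] [DecidableEq ι] (e : Fin N ≃ ι)
    (e' : Fin M ≃ ι) (X : Γ → Matrix ι ι A) (U : Matrix ι ι A) (f : Γ →* GLm N A)
    (g : Γ →* GLm M A) (u : GLm N A) (v : GLm M A)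
    (hu : ∀ γ, f γ * u = u * f γ) (hv : ∀ γ, g γ * v = v * g γ)
    (hf : ∀ γ, (f γ).val = (X γ).submatrix e e) (hg : ∀ γ, (g γ).val = (X γ).submatrix e' e')
    (hu' : u.val = U.submatrix e e) (hv' : v.val = U.submatrix e' e') (x : HG Γ n) :
    KQ.cls A (n + 1) N (HG.cr f u hu x) = KQ.cls A (n + 1) M (HG.cr g v hv x) := by
  refine cls_cr_iso f g u v hu hv ((1 : Matrix ι ι A).submatrix e e')
    ((1 : Matrix ι ι A).submatrix e' e) ?_ ?_ (fun γ => ?_) ?_ x
  · rw [submatrix_mul_equiv, Matrix.one_mul, submatrix_one_equiv]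
  · rw [submatrix_mul_equiv, Matrix.one_mul, submatrix_one_equiv]
  · rw [hf, hg, submatrix_mul_equiv, submatrix_mul_equiv, Matrix.mul_one, Matrix.one_mul]
  · rw [hu', hv', submatrix_mul_equiv, submatrix_mul_equiv, Matrix.mul_one, Matrix.one_mul]

end Cr

section

variable {A : Type u} [Ring A] {A' : Type v} [Ring A'] {B : Type*} [Ring B] {B' : Type*} [Ring B']
  {Γ : Type w} [Group Γ] {n r : ℕ}

/-- **Flattening and the product with a commuting element.** -/
theorem push_asm1 (φ : A →+* Matrix (Fin r) (Fin r) A') (φ' : B →+* Matrix (Fin r) (Fin r) B')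
    (ψ : B →+* A) (ψ' : B' →+* A') (κ : Γ →* Aˣ) (κ' : Γ →* A'ˣ)
    (hκ : ∀ γ b, ψ b * (κ γ : A) = κ γ * ψ b) (hκ' : ∀ γ b, ψ' b * (κ' γ : A') = κ' γ * ψ' b)
    (h1 : ∀ b, φ (ψ b) = (φ' b).map ψ')
    (h2 : ∀ γ, φ (κ γ : A) = Matrix.diagonal fun _ => (κ' γ : A')) (x : K1 B) (z : HG Γ n) :
    KQ.push φ (asm1 n ψ κ hκ x z) = asm1 n ψ' κ' hκ' (K1.push φ' x) z := by
  suffices H : (AddMonoidHom.compHom (KQ.push φ)).comp (asm1 n ψ κ hκ) =
      (asm1 n ψ' κ' hκ').comp (K1.push φ') from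
    DFunLike.congr_fun (DFunLike.congr_fun H x) z
  apply K1.hom_ext
  intro N U
  apply AddMonoidHom.ext
  intro z
  change KQ.push φ (asm1 n ψ κ hκ (K1.mk U) z) = asm1 n ψ' κ' hκ' (K1.push φ' (K1.mk U)) z
  have hc : ∀ γ, ((flatGL φ N).comp (scal N κ)) γ * flatGL φ N (mapGL ψ N U) =
      flatGL φ N (mapGL ψ N U) * ((flatGL φ N).comp (scal N κ)) γ := by
    intro γ
    rw [MonoidHom.comp_apply, ← map_mul, ← map_mul, scal_comm ψ κ hκ]
  rw [asm1_mk, KQ.push_cls, HG.map_cr (scal N κ) (flatGL φ N) (mapGL ψ N U) (scal_comm ψ κ hκ U) hc,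
    Pool.Agent.H95.WH.K1.push_mk, Pool.Agent.H95.WH.K1.cls, asm1_mk]
  refine cls_cr_reindex (fE N r) (Fintype.equivFin (Fin N × Fin r)).symm
    (fun γ => Matrix.diagonal fun _ => (κ' γ : A')) (Matrix.map (K0.flat φ' U.val) ψ')
    _ _ _ _ _ _ (fun γ => ?_) (fun γ => ?_) ?_ ?_ z
  · change (K0.flat φ (diagonal fun _ : Fin N => (κ γ : A))).submatrix (fE N r) (fE N r) = _
    congr 1
    ext ⟨i, c⟩ ⟨j, d⟩
    change φ ((diagonal fun _ : Fin N => (κ γ : A)) i j) c d =
      (diagonal fun _ : Fin N × Fin r => (κ' γ : A')) (i, c) (j, d)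
    by_cases hij : i = j
    · subst hij
      rw [Matrix.diagonal_apply_eq, h2]
      by_cases hcd : c = d
      · subst hcd
        rw [Matrix.diagonal_apply_eq, Matrix.diagonal_apply_eq]
      · rw [Matrix.diagonal_apply_ne _ hcd,
          Matrix.diagonal_apply_ne _ (fun h => hcd (congrArg Prod.snd h))]
    · rw [Matrix.diagonal_apply_ne _ hij, map_zero,
        Matrix.diagonal_apply_ne _ (fun h => hij (congrArg Prod.fst h))]
      rfl
  · change (diagonal fun _ : Fin _ => (κ' γ : A')) = _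
    rw [submatrix_diagonal_equiv]
    rfl
  · change (K0.flat φ (U.val.map ψ)).submatrix (fE N r) (fE N r) = _
    congr 1
    ext ⟨i, c⟩ ⟨j, d⟩
    change φ (ψ (U.val i j)) c d = ψ' (φ' (U.val i j) c d)
    rw [h1, Matrix.map_apply]
  · rfl

end

section Push

theorem push_map1 {R : Type*} [Ring R] {S : Type*} [Ring S] {T : Type*} [Ring T]
    {J : Type*} [Fintype J] [DecidableEq J] (φ : S →+* Matrix J J T) (f : R →+* S) (x : K1 R) :
    K1.push φ (K1.map f x) = K1.push (φ.comp f) x := by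
  have h : (K1.push φ).comp (K1.map f) = K1.push (φ.comp f) := by
    apply K1.hom_ext
    intro n U
    rw [AddMonoidHom.comp_apply, K1.map_mk, Pool.Agent.H95.WH.K1.push_mk,
      Pool.Agent.H95.WH.K1.push_mk]
    congr 1
  exact DFunLike.congr_fun h x

private theorem push_unit1 {R : Type*} [Ring R] (x : K1 R) :
    K1.push (Matrix.scalar Unit : R →+* Matrix Unit Unit R) x = x := by
  have h : K1.push (Matrix.scalar Unit : R →+* Matrix Unit Unit R) = AddMonoidHom.id (K1 R) := by
    apply K1.hom_ext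
    intro n U
    rw [Pool.Agent.H95.WH.K1.push_mk, AddMonoidHom.id_apply, ← Pool.Agent.H95.WH.K1.cls_mk,
      ← Pool.Agent.H95.WH.K1.cls_reindex (Equiv.prodUnique (Fin n) Unit)]
    congr 1
  rw [h]
  rfl

private theorem push_sigma1 {R : Type*} [Ring R] (d : ℕ) (x : K1 R) :
    K1.push (Matrix.scalar (Σ _ : Fin d, Unit) :
      R →+* Matrix (Σ _ : Fin d, Unit) (Σ _ : Fin d, Unit) R) x = d • x := by
  rw [Pool.Agent.H95.WH.K1.push_blk (I := Fin d) (K := fun _ => Unit)
    (fun _ => (Matrix.scalar Unit : R →+* Matrix Unit Unit R))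
    (Matrix.scalar (Σ _ : Fin d, Unit)) (fun r => by
      refine Matrix.ext fun i j => ?_
      obtain ⟨i, a⟩ := i
      obtain ⟨j, b⟩ := j
      by_cases h : i = j
      · subst h
        rw [Matrix.blockDiagonal'_apply_eq]
        simp
      · rw [Matrix.blockDiagonal'_apply_ne _ _ _ h, Matrix.scalar_apply,
          Matrix.diagonal_apply_ne]
        intro e
        exact h (congrArg Sigma.fst e)) x]
  simp only [push_unit1]
  rw [Finset.sum_const, Finset.card_univ, Fintype.card_fin]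

/-- the diagonal embedding into the matrices multiplies by the size -/
theorem push_scalar1 {S : Type*} [Ring S] (r : ℕ) (x : K1 S) :
    K1.push (Matrix.scalar (Fin r) : S →+* _) x = r • x := by
  rw [← push_sigma1 r x]
  refine Pool.Agent.H95.WH.K1.push_congr _ _
    ((1 : Matrix (Fin r) (Fin r) S).submatrix id (Equiv.sigmaUnique (Fin r) fun _ => Unit))
    ((1 : Matrix (Fin r) (Fin r) S).submatrix (Equiv.sigmaUnique (Fin r) fun _ => Unit) id)
    ?_ ?_ (fun a => ?_) x
  · rw [Matrix.submatrix_mul_equiv, Matrix.one_mul, Matrix.submatrix_id_id]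
  · rw [← Matrix.submatrix_mul _ _ _ id _ Function.bijective_id, Matrix.one_mul,
      Matrix.submatrix_one_equiv]
  · refine Matrix.ext fun i j => ?_
    rw [Matrix.scalar_apply, Matrix.scalar_apply, Matrix.diagonal_mul, Matrix.mul_diagonal,
      Matrix.submatrix_apply, Matrix.one_apply]
    split_ifs
    · rw [mul_one, one_mul]
    · rw [mul_zero, zero_mul]

end Push

section

variable {R : Type u} [Ring R] {R' : Type w} [Ring R'] {r : ℕ}

/-- **Flattening and the product for group rings.** -/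
theorem push_gasm1 (ρ : R' →+* Matrix (Fin r) (Fin r) R) {n : ℕ} {G : Type v} [Group G]
    {H : Type v} [Group H] {Γ : Type v} [Group Γ]
    (f : H →* G) (κ : Γ →* G) (h : ∀ γ a, f a * κ γ = κ γ * f a)
    (x : K1 (MonoidAlgebra R' H)) (z : HG Γ n) :
    KQ.push (thM ρ G) (gasm1 R' n f κ h x z) = gasm1 R n f κ h (K1.push (thM ρ H) x) z := by
  refine push_asm1 (thM ρ G) (thM ρ H) _ _ _ _ _ _ (fun b => thM_mapDomain ρ f b)
    (fun γ => ?_) x z
  have h1 : (((grpHom R' G).comp κ) γ : MonoidAlgebra R' G) = MonoidAlgebra.single (κ γ) 1 := rfl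
  have h2 : (((grpHom R G).comp κ) γ : MonoidAlgebra R G) = MonoidAlgebra.single (κ γ) 1 := rfl
  rw [h1, h2, thM_single, map_one]
  refine Matrix.ext fun i j => ?_
  rw [Matrix.map_apply, Matrix.diagonal_apply]
  by_cases hij : i = j
  · rw [if_pos hij, hij, Matrix.one_apply_eq]
  · rw [if_neg hij, Matrix.one_apply_ne hij]
    exact MonoidAlgebra.single_zero _

/-- The family of a homomorphism `R' → Mat_r(R)`. -/
noncomputable def NatK1.ofMat (ρ : R' →+* Matrix (Fin r) (Fin r) R) (G : Type v) [Group G] :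
    NatK1 R' R G where
  app F := K1.push (thM ρ F.1)
  nat F F' g h x := by
    rw [push_map1, K1.map_push]
    have h1 : (thM ρ F'.1).comp (MonoidAlgebra.mapDomainRingHom R' (conjHom g F.1 F'.1 h)) =
        (MonoidAlgebra.mapDomainRingHom R (conjHom g F.1 F'.1 h)).mapMatrix.comp (thM ρ F.1) :=
      RingHom.ext fun y => thM_mapDomain ρ _ y
    rw [h1]

theorem NatK1.ofMat_app (ρ : R' →+* Matrix (Fin r) (Fin r) R) (G : Type v) [Group G]
    (F : FamSub G FinSub) (x : K1 (MonoidAlgebra R' F.1)) :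
    (NatK1.ofMat ρ G).app F x = K1.push (thM ρ F.1) x := rfl

theorem NatK1.ofMat_asm (ρ : R' →+* Matrix (Fin r) (Fin r) R) {n : ℕ} {G : Type v} [Group G]
    (F : FamSub G FinSub) (x : K1 (MonoidAlgebra R' F.1))
    (z : HG (Subgroup.centralizer (F.1 : Set G)) n) :
    KQ.push (thM ρ G) (assembly1 R' n G (sy1 F x z)) =
      assembly1 R n G (sy1 F ((NatK1.ofMat ρ G).app F x) z) := by
  rw [asm1_sy1, asm1_sy1, push_gasm1]
  rfl

end

section

variable {R : Type u} [Ring R] {R' : Type w} [Ring R'] {G : Type v} [Group G]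

/-- **Retracts up to multiplicity.** -/
theorem ratInj01_of_retract {n : ℕ} (m : ℕ) (hm : 0 < m) (ι : R →+* R')
    (ρ : R' →+* Matrix (Fin m) (Fin m) R) (h : ∀ a, ρ (ι a) = Matrix.scalar (Fin m) a)
    (h' : RatInj (assembly01 R' n G)) : RatInj (assembly01 R n G) :=
  ratInj01_of_one n (NatK0.ofHom G ι) (NatK0.ofMat ρ G) (NatK1.ofHom G ι) (NatK1.ofMat ρ G)
    (c := m) (c' := m) hm.ne' hm.ne'
    (fun F x => by
      rw [NatK0.ofMat_app, NatK0.ofHom_app, K0.push_map, thM_retract ι ρ h, push_scalar])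
    (fun F x => by
      rw [NatK1.ofMat_app, NatK1.ofHom_app, push_map1, thM_retract ι ρ h, push_scalar1])
    (KQ.map (MonoidAlgebra.mapRingHom G ι)) (NatK0.ofHom_asm ι) (NatK1.ofHom_asm ι) h'

/-- **Matrix rings.** -/
theorem ratInj01_matrix {n : ℕ} (r : ℕ) (hr : 0 < r) (h : RatInj (assembly01 R n G)) :
    RatInj (assembly01 (Matrix (Fin r) (Fin r) R) n G) :=
  ratInj01_of_one n (NatK0.ofMat (RingHom.id (Matrix (Fin r) (Fin r) R)) G)
    (NatK0.ofHom G (Matrix.scalar (Fin r)))
    (NatK1.ofMat (RingHom.id (Matrix (Fin r) (Fin r) R)) G)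
    (NatK1.ofHom G (Matrix.scalar (Fin r))) (c := r) (c' := r) hr.ne' hr.ne'
    (fun F x => by
      rw [NatK0.ofMat_app, NatK0.ofHom_app, K0.map_push,
        K0.push_congr _ (Matrix.scalar (Fin r)) (flipM R r F.1) (flipM R r F.1)
          (flipM_mul r F.1) (flipM_mul r F.1) (flipM_comm r F.1), push_scalar])
    (fun F x => by
      rw [NatK1.ofMat_app, NatK1.ofHom_app, K1.map_push,
        Pool.Agent.H95.WH.K1.push_congr _ (Matrix.scalar (Fin r)) (flipM R r F.1) (flipM R r F.1)
          (flipM_mul r F.1) (flipM_mul r F.1) (fun s => (flipM_comm r F.1 s).symm), push_scalar1])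
    (KQ.push (thM (RingHom.id (Matrix (Fin r) (Fin r) R)) G)) (NatK0.ofMat_asm _)
    (NatK1.ofMat_asm _) h

/-- **Finite extensions of the ground field.** -/
theorem ratInj01_finExt {n : ℕ} {G : Type w} [Group G] (k : Type u) [Field k] (L : Type v) [Field L]
    [Algebra k L] [Module.Finite k L] (A : Type u) [Ring A] [Algebra k A]
    (h : RatInj (assembly01 (L ⊗[k] A) n G)) : RatInj (assembly01 A n G) :=
  ratInj01_of_retract (Module.finrank k L) Module.finrank_pos
    (Algebra.TensorProduct.includeRight : A →ₐ[k] L ⊗[k] A).toRingHom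
    (extMat k L A (Module.finBasis k L)).toRingHom
    (fun a => extMat_tmul k L A (Module.finBasis k L) a) h

end

end Pool.Agent.H71.FU1
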