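import Pool.Agent.H13.TFQ.H71.FU1.Fun1_1

/-!
# Project FU: surjections with nilpotent kernel, the joint assembly map

For a surjection `φ : R → S` with nilpotent kernel of rings of positive characteristic the kernels of
`GL_N(R[F]) → GL_N(S[F])` have a common exponent `c`, so `[V] ↦ c [lift of V]` is a homomorphism
`K₁(S[F]) → K₁(R[F])`.
-/

set_option autoImplicit false

open Matrix

universe u u' v w

namespace Pool.Agent.H71.FU1

open Pool.Agent.H71.FQ
open Pool.Agent.H16.FU
open Pool.Agent.H71.FJ (K0 K0.map K0.nilLift_map NilKer)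
open Pool.Agent.H95.WH (K1 K1.mk K1.lift K1.lift_mk K1.hom_ext K1.mk_mul K1.mk_stab K1.map K1.map_mk K1.map_map K1.mapU FamSub conjHom FinSub stab stabMat)

section Pow

theorem dvd_choose {m K i : ℕ} (hi : i + 1 ≤ K) (hc : m * K.factorial ≠ 0) :
    m ∣ (m * K.factorial).choose (i + 1) := by
  obtain ⟨s, hs⟩ : i + 1 ∣ K.factorial := Nat.dvd_factorial (Nat.succ_pos i) hi
  obtain ⟨c, hc'⟩ : ∃ c, m * K.factorial = c + 1 := Nat.exists_eq_succ_of_ne_zero hc
  have h1 := Nat.add_one_mul_choose_eq c i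
  rw [← hc', hs] at h1
  refine ⟨s * c.choose i, ?_⟩
  have h2 : (m * ((i + 1) * s)).choose (i + 1) * (i + 1) = m * (s * c.choose i) * (i + 1) := by
    rw [← h1]
    ring
  rw [hs]
  exact Nat.eq_of_mul_eq_mul_right (Nat.succ_pos i) h2

theorem one_add_pow_eq_one {A : Type*} [Ring A] {x : A} {K m : ℕ} (hx : x ^ K = 0)
    (hm : (m : A) = 0) : (1 + x) ^ (m * K.factorial) = 1 := by
  rw [add_comm, (Commute.one_right x).add_pow, Finset.sum_range_succ', Finset.sum_eq_zero]
  · simp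
  · intro i hi
    have hc : m * K.factorial ≠ 0 := by
      intro h
      rw [h] at hi
      simp at hi
    by_cases h : K ≤ i + 1
    · rw [pow_eq_zero_of_le h hx, zero_mul, zero_mul]
    · obtain ⟨t, ht⟩ := dvd_choose (m := m) (K := K) (i := i) (by omega) hc
      rw [ht, Nat.cast_mul, hm, zero_mul, mul_zero]

end Pow

section NilN

variable {R : Type u} [Ring R] {S : Type v} [Ring S]

/-- A homomorphism whose kernel is nilpotent of index `N`. -/
def NilN (φ : R →+* S) (N : ℕ) : Prop :=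
  ∃ J : ℕ → AddSubgroup R, (∀ x, x ∈ J 0) ∧ (∀ x ∈ J N, x = 0) ∧
    ∀ j x y, φ x = 0 → y ∈ J j → x * y ∈ J (j + 1)

theorem NilN.pow {φ : R →+* S} {N : ℕ} (h : NilN φ N) {x : R} (hx : φ x = 0) : x ^ N = 0 := by
  obtain ⟨J, h0, hN, hJ⟩ := h
  have key : ∀ j : ℕ, x ^ j ∈ J j := by
    intro j
    induction j with
    | zero => exact h0 _
    | succ j ih =>
      rw [pow_succ']
      exact hJ j x _ hx ih
  exact hN _ (key N)

theorem NilN.matrix {φ : R →+* S} {N : ℕ} (h : NilN φ N) (ι : Type*) [Fintype ι]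
    [DecidableEq ι] : NilN (φ.mapMatrix : Matrix ι ι R →+* Matrix ι ι S) N := by
  obtain ⟨J, h0, hN, hJ⟩ := h
  refine ⟨fun j =>
    { carrier := {X | ∀ i k, X i k ∈ J j}
      add_mem' := fun {a b} ha hb i k => (J j).add_mem (ha i k) (hb i k)
      zero_mem' := fun i k => (J j).zero_mem
      neg_mem' := fun {a} ha i k => (J j).neg_mem (ha i k) }, ?_, ?_, ?_⟩
  · intro x i k
    exact h0 _
  · intro x hx
    ext i k
    exact hN _ (hx i k)
  · intro j x y hx hy i k
    rw [Matrix.mul_apply]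
    refine AddSubgroup.sum_mem _ (fun l _ => hJ j _ _ ?_ (hy l k))
    have := congrFun (congrFun hx i) l
    simpa using this

theorem NilN.monoidAlgebra {φ : R →+* S} {N : ℕ} (h : NilN φ N) (G : Type*) [Monoid G] :
    NilN (MonoidAlgebra.mapRingHom G φ) N := by
  classical
  obtain ⟨J, h0, hN, hJ⟩ := h
  refine ⟨fun j =>
    { carrier := {X | ∀ g, X.coeff g ∈ J j}
      add_mem' := fun {a b} ha hb g => by
        rw [MonoidAlgebra.coeff_add]
        exact (J j).add_mem (ha g) (hb g)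
      zero_mem' := fun g => by
        rw [MonoidAlgebra.coeff_zero]
        exact (J j).zero_mem
      neg_mem' := fun {a} ha g => by
        rw [MonoidAlgebra.coeff_neg]
        exact (J j).neg_mem (ha g) }, ?_, ?_, ?_⟩
  · intro x g
    exact h0 _
  · intro x hx
    ext g
    exact hN _ (hx g)
  · intro j x y hx hy g
    rw [MonoidAlgebra.coeff_mul]
    refine AddSubgroup.sum_mem _ (fun a _ => AddSubgroup.sum_mem _ (fun b _ => ?_))
    simp only
    split_ifs
    · refine hJ j _ _ ?_ (hy b)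
      have := congrArg (fun z => MonoidAlgebra.coeff z a) hx
      simpa using this
    · exact (J (j + 1)).zero_mem

/-- units lift -/
theorem exists_lift_unit {φ : R →+* S} (hs : Function.Surjective φ) {N : ℕ} (h : NilN φ N)
    (u : Sˣ) : ∃ v : Rˣ, Units.map (φ : R →* S) v = u := by
  obtain ⟨x, hx⟩ := hs u
  obtain ⟨y, hy⟩ := hs (u⁻¹ : Sˣ)
  have h1 : φ (x * y - 1) = 0 := by
    rw [map_sub, map_mul, hx, hy, Units.mul_inv, map_one, sub_self]
  have h2 : φ (y * x - 1) = 0 := by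
    rw [map_sub, map_mul, hx, hy, Units.inv_mul, map_one, sub_self]
  have h3 : IsUnit (x * y) := by
    have h5 := (show IsNilpotent (x * y - 1) from ⟨N, h.pow h1⟩).isUnit_one_add
    rwa [add_sub_cancel] at h5
  have h4 : IsUnit (y * x) := by
    have h5 := (show IsNilpotent (y * x - 1) from ⟨N, h.pow h2⟩).isUnit_one_add
    rwa [add_sub_cancel] at h5
  obtain ⟨a, ha⟩ := h3
  obtain ⟨b, hb⟩ := h4
  have h5 : x * (y * (a⁻¹ : Rˣ)) = 1 := by rw [← mul_assoc, ← ha, Units.mul_inv]
  have h6 : ((b⁻¹ : Rˣ) * y) * x = 1 := by rw [mul_assoc, ← hb, Units.inv_mul]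
  have h7 : ((b⁻¹ : Rˣ) : R) * y = y * (a⁻¹ : Rˣ) := left_inv_eq_right_inv h6 h5
  refine ⟨⟨x, y * (a⁻¹ : Rˣ), h5, by rw [← h7]; exact h6⟩, ?_⟩
  apply Units.ext
  exact hx

end NilN

section Sec

variable {A : Type u} [Ring A] {B : Type v} [Ring B] {φ : A →+* B} {c : ℕ}

theorem mk_indep (hker : ∀ (N : ℕ) (W : GLm N A), K1.mapU φ W = 1 → c • K1.mk W = 0) {N : ℕ}
    (U U' : GLm N A) (h : K1.mapU φ U = K1.mapU φ U') : c • K1.mk U = c • K1.mk U' := by
  have h1 : K1.mapU φ (U * U'⁻¹) = 1 := by rw [map_mul, map_inv, h, mul_inv_cancel]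
  have h2 : K1.mk U = K1.mk (U * U'⁻¹) + K1.mk U' := by
    rw [← K1.mk_mul, inv_mul_cancel_right]
  rw [h2, smul_add, hker N _ h1, zero_add]

/-- `[V] ↦ c [lift of V]` -/
noncomputable def sec1 (hlift : ∀ (N : ℕ) (V : GLm N B), ∃ U : GLm N A, K1.mapU φ U = V)
    (hker : ∀ (N : ℕ) (W : GLm N A), K1.mapU φ W = 1 → c • K1.mk W = 0) : K1 B →+ K1 A :=
  K1.lift (fun N V => c • K1.mk (hlift N V).choose)
    (fun N U V => by
      rw [← smul_add, ← K1.mk_mul]
      apply mk_indep hker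
      rw [map_mul, (hlift N U).choose_spec, (hlift N V).choose_spec, (hlift N (U * V)).choose_spec])
    (fun N U => by
      rw [← K1.mk_stab (hlift N U).choose]
      apply mk_indep hker
      rw [K1.stab_mapU, (hlift N U).choose_spec, (hlift (N + 1) (stab U)).choose_spec])

theorem sec1_map (hlift : ∀ (N : ℕ) (V : GLm N B), ∃ U : GLm N A, K1.mapU φ U = V)
    (hker : ∀ (N : ℕ) (W : GLm N A), K1.mapU φ W = 1 → c • K1.mk W = 0) (x : K1 A) :
    sec1 hlift hker (K1.map φ x) = c • x := by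
  have h1 : (sec1 hlift hker).comp (K1.map φ) = c • AddMonoidHom.id (K1 A) := by
    apply K1.hom_ext
    intro N U
    rw [AddMonoidHom.comp_apply, K1.map_mk, sec1, K1.lift_mk, AddMonoidHom.nsmul_apply,
      AddMonoidHom.id_apply]
    exact mk_indep hker _ _ (hlift N _).choose_spec
  exact DFunLike.congr_fun h1 x

theorem map_surj1 (hlift : ∀ (N : ℕ) (V : GLm N B), ∃ U : GLm N A, K1.mapU φ U = V) (y : K1 B) :
    ∃ x : K1 A, K1.map φ x = y := by
  obtain ⟨w, rfl⟩ := QuotientAddGroup.mk_surjective y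
  induction w using FreeAbelianGroup.induction_on with
  | zero => exact ⟨0, map_zero _⟩
  | of s =>
    obtain ⟨N, V⟩ := s
    obtain ⟨U, hU⟩ := hlift N V
    exact ⟨K1.mk U, by rw [K1.map_mk, hU]; rfl⟩
  | neg s hs =>
    obtain ⟨x, hx⟩ := hs
    exact ⟨-x, by rw [map_neg, hx]; rfl⟩
  | add a b ha hb =>
    obtain ⟨x, hx⟩ := ha
    obtain ⟨y, hy⟩ := hb
    exact ⟨x + y, by rw [map_add, hx, hy]; rfl⟩

end Sec

section

variable {R : Type u} [Ring R] {S : Type u'} [Ring S] {G : Type v} [Group G]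

theorem hlift_of {φ : R →+* S} (hs : Function.Surjective φ) {K : ℕ} (hn : NilN φ K) (H : Type*)
    [Monoid H] (N : ℕ) (V : GLm N (MonoidAlgebra S H)) :
    ∃ U : GLm N (MonoidAlgebra R H), K1.mapU (MonoidAlgebra.mapRingHom H φ) U = V := by
  have hs' : Function.Surjective ((MonoidAlgebra.mapRingHom H φ).mapMatrix :
      Matrix (Fin N) (Fin N) (MonoidAlgebra R H) →+*
        Matrix (Fin N) (Fin N) (MonoidAlgebra S H)) := by
    intro X
    choose g hg using mapRing_surjective hs H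
    exact ⟨X.map g, by ext1 i j; exact hg _⟩
  exact exists_lift_unit hs' ((hn.monoidAlgebra H).matrix (Fin N)) V

theorem hker_of {φ : R →+* S} {K : ℕ} (hn : NilN φ K) {m : ℕ} (hm : (m : R) = 0) (H : Type*)
    [Monoid H] (N : ℕ) (W : GLm N (MonoidAlgebra R H))
    (hW : K1.mapU (MonoidAlgebra.mapRingHom H φ) W = 1) :
    (m * K.factorial) • K1.mk W = 0 := by
  have h1 : ((MonoidAlgebra.mapRingHom H φ).mapMatrix :
      Matrix (Fin N) (Fin N) (MonoidAlgebra R H) →+*
        Matrix (Fin N) (Fin N) (MonoidAlgebra S H)) (W.val - 1) = 0 := by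
    rw [map_sub, map_one, sub_eq_zero]
    exact congrArg Units.val hW
  have h2 : (m : Matrix (Fin N) (Fin N) (MonoidAlgebra R H)) = 0 := by
    have h3 : (m : MonoidAlgebra R H) = 0 := by
      have h4 : (MonoidAlgebra.singleOneRingHom : R →+* MonoidAlgebra R H) (m : R) =
          (m : MonoidAlgebra R H) := map_natCast _ m
      rw [← h4, hm, map_zero]
    have h5 : (Matrix.scalar (Fin N) : MonoidAlgebra R H →+* _) (m : MonoidAlgebra R H) =
        (m : Matrix (Fin N) (Fin N) (MonoidAlgebra R H)) := map_natCast _ m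
    rw [← h5, h3, map_zero]
  have h3 := one_add_pow_eq_one (((hn.monoidAlgebra H).matrix (Fin N)).pow h1) h2
  rw [add_sub_cancel] at h3
  have h4 : W ^ (m * K.factorial) = 1 := by
    apply Units.ext
    rw [Units.val_pow_eq_pow_val, h3, Units.val_one]
  rw [← Pool.Agent.H95.WH.K1.cls_mk, ← Pool.Agent.H95.WH.K1.cls_pow, h4,
    Pool.Agent.H95.WH.K1.cls_one]

variable (G) in
/-- The family of the lifts for a surjection with nilpotent kernel. -/
noncomputable def NatK1.ofNil {φ : R →+* S} (hs : Function.Surjective φ) {K : ℕ}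
    (hn : NilN φ K) {m : ℕ} (hm : (m : R) = 0) : NatK1 S R G where
  app F := sec1 (c := m * K.factorial) (hlift_of hs hn F.1) (hker_of hn hm F.1)
  nat F F' g h x := by
    obtain ⟨y, rfl⟩ := map_surj1 (hlift_of hs hn F.1) x
    rw [K1.map_map, ← mapRing_mapDomain, ← K1.map_map, sec1_map, sec1_map, map_nsmul]

/-- **Nilpotent kernels.** -/
theorem ratInj01_of_nilKer (n : ℕ) {φ : R →+* S} (hs : Function.Surjective φ) (hn : NilKer φ)
    {m : ℕ} (hm0 : m ≠ 0) (hm : (m : R) = 0)
    (h : RatInj (assembly01 S n G)) : RatInj (assembly01 R n G) := by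
  have h0 : ∃ K, NilN φ K := hn
  obtain ⟨K, hK⟩ := h0
  exact ratInj01_of_one n (NatK0.ofHom G φ) (NatK0.ofNil G hs hn) (NatK1.ofHom G φ)
    (NatK1.ofNil G hs hK hm) one_ne_zero (mul_ne_zero hm0 (Nat.factorial_ne_zero K))
    (fun F x => by
      rw [one_smul]
      exact K0.nilLift_map (mapRing_surjective hs F.1) (hn.monoidAlgebra F.1) x)
    (fun F x => sec1_map (hlift_of hs hK F.1) (hker_of hK hm F.1) x)
    (KQ.map (MonoidAlgebra.mapRingHom G φ)) (NatK0.ofHom_asm φ) (NatK1.ofHom_asm φ) h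

end

end Pool.Agent.H71.FU1
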