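import Pool.Agent.H13.TFQ.H16.FU.Asm1_1
import Pool.Agent.H13.TFQ.H71.FQ.Fun_1
import Pool.Agent.H13.TFQ.M23

/-!
# Project FU: change of the coefficient ring for the joint assembly map

`NatK1 R S G`: a family of homomorphisms `K₁(R[F]) → K₁(S[F])`, compatible with the conjugations.
`ratInj01_of_family`: the reduction principle for the joint assembly map.
-/

set_option autoImplicit false

open Matrix

universe u u' v w

namespace Pool.Agent.H71.FU1

open Pool.Agent.H71.FQ
open Pool.Agent.H16.FU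
open Pool.Agent.H71.FJ (IdemMat K0 K0.mk K0.map)
open Pool.Agent.H95.WH (K1 K1.mk K1.map K1.map_map FamSub conjHom FinSub)

section Nat

variable {R : Type u} [Ring R] {S : Type u'} [Ring S] {G : Type v} [Group G]

/-- The homomorphism of the sources. -/
noncomputable def NatK1.src (τ : NatK1 R S G) (n : ℕ) : HnK1 R G n →+ HnK1 S G n :=
  lift1 (fun F => (syB1 F).comp (τ.app F)) (by
    intro F F' g h x z
    change sy1 F' (τ.app F' (K1.map _ x)) z = sy1 F (τ.app F x) _
    rw [τ.nat, sy1_conj])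

theorem NatK1.src_sy (τ : NatK1 R S G) {n : ℕ} (F : FamSub G FinSub)
    (x : K1 (MonoidAlgebra R F.1)) (z : HG (Subgroup.centralizer (F.1 : Set G)) n) :
    τ.src n (sy1 F x z) = sy1 F (τ.app F x) z := lift1_sy1 _ _ F x z

/-- two homomorphisms which agree on the symbols are equal -/
theorem hnk1_ext {n : ℕ} {M : Type w} [AddCommGroup M] {f g : HnK1 R G n →+ M}
    (h : ∀ (F : FamSub G FinSub) (x : K1 (MonoidAlgebra R F.1))
      (z : HG (Subgroup.centralizer (F.1 : Set G)) n), f (sy1 F x z) = g (sy1 F x z)) : f = g := by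
  ext y
  induction y using hnk1_induction with
  | h0 => rw [map_zero, map_zero]
  | h1 F x z => exact h F x z
  | h2 a b ha hb => rw [map_add, map_add, ha, hb]
  | h3 a ha => rw [map_neg, map_neg, ha]

theorem assembly01_apply {n : ℕ} (w : HnK0 R G (n + 1) × HnK1 R G n) :
    assembly01 R n G w = assemblyN R (n + 1) G w.1 + assembly1 R n G w.2 := rfl

/-- **The reduction principle.** -/
theorem ratInj01_of_family {ι : Type w} (s : Finset ι) (T : ι → Type u') [∀ i, Ring (T i)] (n : ℕ)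
    (τ : ∀ i, NatK0 R (T i) G) (σ : ∀ i, NatK0 (T i) R G)
    (τ' : ∀ i, NatK1 R (T i) G) (σ' : ∀ i, NatK1 (T i) R G) {c c' : ℕ} (hc : c ≠ 0) (hc' : c' ≠ 0)
    (hστ : ∀ (F : FamSub G FinSub) (x : K0 (MonoidAlgebra R F.1)),
      ∑ i ∈ s, (σ i).app F ((τ i).app F x) = c • x)
    (hστ' : ∀ (F : FamSub G FinSub) (x : K1 (MonoidAlgebra R F.1)),
      ∑ i ∈ s, (σ' i).app F ((τ' i).app F x) = c' • x)
    (κ : ∀ i, KQ (MonoidAlgebra R G) (n + 1) →+ KQ (MonoidAlgebra (T i) G) (n + 1))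
    (hκ : ∀ i ∈ s, ∀ (F : FamSub G FinSub) (x : K0 (MonoidAlgebra R F.1))
      (z : HG (Subgroup.centralizer (F.1 : Set G)) (n + 1)),
      κ i (assemblyN R (n + 1) G (sy F x z)) = assemblyN (T i) (n + 1) G (sy F ((τ i).app F x) z))
    (hκ' : ∀ i ∈ s, ∀ (F : FamSub G FinSub) (x : K1 (MonoidAlgebra R F.1))
      (z : HG (Subgroup.centralizer (F.1 : Set G)) n),
      κ i (assembly1 R n G (sy1 F x z)) = assembly1 (T i) n G (sy1 F ((τ' i).app F x) z))
    (h : ∀ i ∈ s, RatInj (assembly01 (T i) n G)) : RatInj (assembly01 R n G) := by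
  classical
  have hκ1 : ∀ i ∈ s, ∀ w, κ i (assemblyN R (n + 1) G w) =
      assemblyN (T i) (n + 1) G ((τ i).src (n + 1) w) := by
    intro i hi w
    have h1 : (κ i).comp (assemblyN R (n + 1) G) =
        (assemblyN (T i) (n + 1) G).comp ((τ i).src (n + 1)) := by
      apply hnk0_ext
      intro F x z
      rw [AddMonoidHom.comp_apply, AddMonoidHom.comp_apply, hκ i hi, NatK0.src_sy]
    exact DFunLike.congr_fun h1 w
  have hκ2 : ∀ i ∈ s, ∀ w, κ i (assembly1 R n G w) = assembly1 (T i) n G ((τ' i).src n w) := by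
    intro i hi w
    have h1 : (κ i).comp (assembly1 R n G) = (assembly1 (T i) n G).comp ((τ' i).src n) := by
      apply hnk1_ext
      intro F x z
      rw [AddMonoidHom.comp_apply, AddMonoidHom.comp_apply, hκ' i hi, NatK1.src_sy]
    exact DFunLike.congr_fun h1 w
  have hid : ∀ w : HnK0 R G (n + 1),
      ∑ i ∈ s, (σ i).src (n + 1) ((τ i).src (n + 1) w) = c • w := by
    intro w
    have h1 : ∑ i ∈ s, ((σ i).src (n + 1)).comp ((τ i).src (n + 1)) =
        c • AddMonoidHom.id (HnK0 R G (n + 1)) := by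
      apply hnk0_ext
      intro F x z
      rw [AddMonoidHom.finsetSum_apply, AddMonoidHom.nsmul_apply, AddMonoidHom.id_apply]
      have h2 : ∀ i ∈ s, (((σ i).src (n + 1)).comp ((τ i).src (n + 1))) (sy F x z) =
          syH F z ((σ i).app F ((τ i).app F x)) := by
        intro i _
        rw [AddMonoidHom.comp_apply, NatK0.src_sy, NatK0.src_sy]
        rfl
      rw [Finset.sum_congr rfl h2, ← map_sum, hστ, map_nsmul]
      rfl
    have h3 := DFunLike.congr_fun h1 w
    rw [AddMonoidHom.finsetSum_apply, AddMonoidHom.nsmul_apply] at h3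
    exact h3
  have hid' : ∀ w : HnK1 R G n, ∑ i ∈ s, (σ' i).src n ((τ' i).src n w) = c' • w := by
    intro w
    have h1 : ∑ i ∈ s, ((σ' i).src n).comp ((τ' i).src n) =
        c' • AddMonoidHom.id (HnK1 R G n) := by
      apply hnk1_ext
      intro F x z
      rw [AddMonoidHom.finsetSum_apply, AddMonoidHom.nsmul_apply, AddMonoidHom.id_apply]
      have h2 : ∀ i ∈ s, (((σ' i).src n).comp ((τ' i).src n)) (sy1 F x z) =
          (syB1 F ((σ' i).app F ((τ' i).app F x))) z := by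
        intro i _
        rw [AddMonoidHom.comp_apply, NatK1.src_sy, NatK1.src_sy, syB1_apply]
      rw [Finset.sum_congr rfl h2, ← AddMonoidHom.finsetSum_apply, ← map_sum, hστ', map_nsmul]
      rfl
    have h3 := DFunLike.congr_fun h1 w
    rw [AddMonoidHom.finsetSum_apply, AddMonoidHom.nsmul_apply] at h3
    exact h3
  rw [ratInj_iff]
  intro z M hM hz
  have h4 : ∀ i : ι, ∃ m : ℤ, m ≠ 0 ∧ (i ∈ s → m • (τ i).src (n + 1) z.1 = 0 ∧
      m • (τ' i).src n z.2 = 0) := by
    intro i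
    by_cases hi : i ∈ s
    · obtain ⟨m, hm, h5⟩ := ratInj_iff.1 (h i hi) ((τ i).src (n + 1) z.1, (τ' i).src n z.2) M hM (by
        rw [assembly01_apply]
        change M • (assemblyN (T i) (n + 1) G ((τ i).src (n + 1) z.1) +
          assembly1 (T i) n G ((τ' i).src n z.2)) = 0
        rw [← hκ1 i hi, ← hκ2 i hi, ← map_add, ← map_zsmul, ← assembly01_apply, hz, map_zero])
      exact ⟨m, hm, fun _ => ⟨congrArg Prod.fst h5, congrArg Prod.snd h5⟩⟩
    · exact ⟨1, one_ne_zero, fun h => absurd h hi⟩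
  choose m hm h5 using h4
  have hprod : (∏ i ∈ s, m i) ≠ 0 := Finset.prod_ne_zero_iff.2 fun i _ => hm i
  have h6 : ∀ i ∈ s, (∏ i ∈ s, m i) • (τ i).src (n + 1) z.1 = 0 := by
    intro i hi
    rw [← Finset.prod_erase_mul s m hi, mul_smul, (h5 i hi).1, smul_zero]
  have h7 : ∀ i ∈ s, (∏ i ∈ s, m i) • (τ' i).src n z.2 = 0 := by
    intro i hi
    rw [← Finset.prod_erase_mul s m hi, mul_smul, (h5 i hi).2, smul_zero]
  have h8 : ((∏ i ∈ s, m i) * c) • z.1 = 0 := by
    calc ((∏ i ∈ s, m i) * c) • z.1 =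
        (∏ i ∈ s, m i) • ∑ i ∈ s, (σ i).src (n + 1) ((τ i).src (n + 1) z.1) := by
          rw [hid, mul_smul, natCast_zsmul]
      _ = ∑ i ∈ s, (σ i).src (n + 1) ((∏ i ∈ s, m i) • (τ i).src (n + 1) z.1) := by
        rw [Finset.smul_sum]
        exact Finset.sum_congr rfl fun i _ => (map_zsmul _ _ _).symm
      _ = 0 := Finset.sum_eq_zero fun i hi => by rw [h6 i hi, map_zero]
  have h9 : ((∏ i ∈ s, m i) * c') • z.2 = 0 := by
    calc ((∏ i ∈ s, m i) * c') • z.2 =
        (∏ i ∈ s, m i) • ∑ i ∈ s, (σ' i).src n ((τ' i).src n z.2) := by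
          rw [hid', mul_smul, natCast_zsmul]
      _ = ∑ i ∈ s, (σ' i).src n ((∏ i ∈ s, m i) • (τ' i).src n z.2) := by
        rw [Finset.smul_sum]
        exact Finset.sum_congr rfl fun i _ => (map_zsmul _ _ _).symm
      _ = 0 := Finset.sum_eq_zero fun i hi => by rw [h7 i hi, map_zero]
  refine ⟨((∏ i ∈ s, m i) * c) * ((∏ i ∈ s, m i) * c'), mul_ne_zero
    (mul_ne_zero hprod (by exact_mod_cast hc)) (mul_ne_zero hprod (by exact_mod_cast hc')), ?_⟩
  refine Prod.ext ?_ ?_
  · change (((∏ i ∈ s, m i) * c) * ((∏ i ∈ s, m i) * c')) • z.1 = 0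
    rw [mul_comm, mul_smul, h8, smul_zero]
  · change (((∏ i ∈ s, m i) * c) * ((∏ i ∈ s, m i) * c')) • z.2 = 0
    rw [mul_smul, h9, smul_zero]

/-- the case of one ring -/
theorem ratInj01_of_one (n : ℕ) (τ : NatK0 R S G) (σ : NatK0 S R G) (τ' : NatK1 R S G)
    (σ' : NatK1 S R G) {c c' : ℕ} (hc : c ≠ 0) (hc' : c' ≠ 0)
    (hστ : ∀ (F : FamSub G FinSub) (x : K0 (MonoidAlgebra R F.1)),
      σ.app F (τ.app F x) = c • x)
    (hστ' : ∀ (F : FamSub G FinSub) (x : K1 (MonoidAlgebra R F.1)),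
      σ'.app F (τ'.app F x) = c' • x)
    (κ : KQ (MonoidAlgebra R G) (n + 1) →+ KQ (MonoidAlgebra S G) (n + 1))
    (hκ : ∀ (F : FamSub G FinSub) (x : K0 (MonoidAlgebra R F.1))
      (z : HG (Subgroup.centralizer (F.1 : Set G)) (n + 1)),
      κ (assemblyN R (n + 1) G (sy F x z)) = assemblyN S (n + 1) G (sy F (τ.app F x) z))
    (hκ' : ∀ (F : FamSub G FinSub) (x : K1 (MonoidAlgebra R F.1))
      (z : HG (Subgroup.centralizer (F.1 : Set G)) n),
      κ (assembly1 R n G (sy1 F x z)) = assembly1 S n G (sy1 F (τ'.app F x) z))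
    (h : RatInj (assembly01 S n G)) : RatInj (assembly01 R n G) := by
  refine ratInj01_of_family (ι := Unit) Finset.univ (fun _ => S) n (fun _ => τ) (fun _ => σ)
    (fun _ => τ') (fun _ => σ') hc hc' (fun F x => ?_) (fun F x => ?_) (fun _ => κ)
    (fun _ _ => hκ) (fun _ _ => hκ') (fun _ _ => h)
  · rw [Finset.univ_unique, Finset.sum_singleton]
    exact hστ F x
  · rw [Finset.univ_unique, Finset.sum_singleton]
    exact hστ' F x

theorem NatK1.ofHom_asm (φ : R →+* S) {n : ℕ} (F : FamSub G FinSub)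
    (x : K1 (MonoidAlgebra R F.1)) (z : HG (Subgroup.centralizer (F.1 : Set G)) n) :
    KQ.map (MonoidAlgebra.mapRingHom G φ) (assembly1 R n G (sy1 F x z)) =
      assembly1 S n G (sy1 F ((NatK1.ofHom G φ).app F x) z) := by
  rw [asm1_sy1, asm1_sy1, map_gasm1]
  rfl

end Nat

end Pool.Agent.H71.FU1
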